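import Pool.Agent.Lib.MP_119f04_al.Rep

/-!
# Automorphic norms determine the lattice up to commensurability

Let `Γ₁`, `Γ₂` be cocompact lattices in `G`, let `E` be a topologically irreducible representation
of `G` (for instance the Casselman-Wallach globalization `V^∞` of an irreducible Harish-Chandra
module `V`), `V` a dense subspace, and `η₁`, `η₂` nonzero continuous functionals on `E` such that
`ηᵢ` is invariant under `Γᵢ`. Let `pᵢ(v) = sup |ηᵢ(g v)|` be the automorphic norms. The theorem says
that `p₁ ≤ C p₂` on `V` implies that `Γ₁` is commensurable with a conjugate of `Γ₂`, or that `Γ₁` has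
on `G / Γ₂` an ergodic stationary probability measure without atoms (for the uniform measure on a
finite set of generators) which is not invariant under any normal subgroup of `G` that acts
nontrivially on `E`.

The second case does not occur if `G` is a connected semisimple Lie group with finite centre and
without compact factors and no simple factor of `G` acts trivially on `E`. For `Γ₁` is Zariski dense
(Borel), and by the theorem of Benoist and Quint (Ann. of Math. 174 (2011) for simple `G`, J. Amer.
Math. Soc. 26 (2013) in general) an ergodic stationary probability measure `m` on `G / Γ₂` is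
homogeneous: the stabilizer `L` of `m` acts transitively on the support of `m`, and it contains `Γ₁`,
so its identity component is normal in `G`. If `m` has no atoms then `L` is not discrete, so it
contains a simple factor of `G`. Hence in this case `[p₁] = [p₂]`, and even `p₁ ≤ C p₂`, implies
that `Γ₁` and `Γ₂` are commensurable up to conjugation. (If a simple factor `G₂` of `G = G₁ × G₂`
acts trivially then `Γ × Λ₁` and `Γ × Λ₂` have the same automorphic norms for all lattices `Λ₁`,
`Λ₂` in `G₂`.)

The proof. Let `f_v(g Γ₂) = η₂(g⁻¹ v)`. This is a continuous function on `G / Γ₂`, and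
`|η₁(v)| ≤ C ‖f_v‖` on `E`. For the averaging operators `P f (x) = |S|⁻¹ ∑ f(s x)` and
`Q v = |S|⁻¹ ∑ s⁻¹ v` one has `P f_v = f_(Q v)` and `η₁(Q v) = η₁(v)`. So the means of the functions
`P^k f_v` do not tend to zero if `η₁(v) ≠ 0`. This gives a stationary probability measure `m` with
`∫ f_v dm ≠ 0`, and by the theorem of Krein and Milman an ergodic one. If `m` has an atom then `Γ₁`
has a finite orbit in `G / Γ₂`, and `Γ₁`, `Γ₂` are commensurable up to conjugation. If `m` is
invariant under a normal subgroup `N` then `v ↦ ∫ f_v dm` is a nonzero `N`-invariant continuous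
functional on `E`, and `N` acts trivially, because `E` is irreducible.
-/

set_option autoImplicit false

namespace Pool.Agent.Results.MP_119f04_al.AutomorphicNorms

open MeasureTheory
open scoped ENNReal NNReal

/-- The Borel sets of `G / Γ`. -/
instance borelSets {G : Type} [Group G] [TopologicalSpace G] (Γ : Subgroup G) :
    MeasurableSpace (G ⧸ Γ) := borel (G ⧸ Γ)

/-- `Γ` is a discrete subgroup of `G` with a compact quotient. -/
structure CocompactLattice {G : Type} [Group G] [TopologicalSpace G] (Γ : Subgroup G) : Prop where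
  discrete : DiscreteTopology Γ
  compact : CompactSpace (G ⧸ Γ)

/-- The linear action `ρ` of `G` on `E` is (jointly) continuous and topologically irreducible. -/
structure IrreducibleRep {G : Type} [Group G] [TopologicalSpace G] {E : Type} [AddCommGroup E]
    [Module ℂ E] [TopologicalSpace E] (ρ : G →* (E →ₗ[ℂ] E)) : Prop where
  continuous : Continuous fun x : G × E => ρ x.1 x.2
  irreducible : ∀ W : Submodule ℂ E, IsClosed (W : Set E) → (∀ g, ∀ w ∈ W, ρ g w ∈ W) →
    W = ⊥ ∨ W = ⊤

/-- `η` is a nonzero continuous functional on `E` that is invariant under `Γ`. -/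
structure Automorphic {G : Type} [Group G] {E : Type} [AddCommGroup E] [Module ℂ E]
    [TopologicalSpace E] (ρ : G →* (E →ₗ[ℂ] E)) (Γ : Subgroup G) (η : E →L[ℂ] ℂ) : Prop where
  ne_zero : η ≠ 0
  invariant : ∀ γ ∈ Γ, ∀ v, η (ρ γ v) = η v

/-- The automorphic norm `sup |η(g v)|`. -/
noncomputable def autNorm {G : Type} [Group G] {E : Type} [AddCommGroup E] [Module ℂ E]
    [TopologicalSpace E] (ρ : G →* (E →ₗ[ℂ] E)) (η : E →L[ℂ] ℂ) (v : E) : ℝ :=
  ⨆ g : G, ‖η (ρ g v)‖

/-- The measure `m` is stationary for the uniform probability measure on the finite set `S`: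
`|S| m(A)` is the sum of the numbers `m(s⁻¹ A)`, `s ∈ S`. -/
def Stationary {G : Type} [Group G] [TopologicalSpace G] {Γ : Subgroup G} (S : Finset G)
    (m : Measure (G ⧸ Γ)) : Prop :=
  ∀ A, MeasurableSet A → (S.card : ℝ≥0∞) * m A = ∑ s ∈ S, m ((fun x => s • x) ⁻¹' A)

/-- The stationary probability measure `m` is ergodic: it is an extreme point of the set of
stationary probability measures. -/
def ErgodicStationary {G : Type} [Group G] [TopologicalSpace G] {Γ : Subgroup G} (S : Finset G)
    (m : Measure (G ⧸ Γ)) : Prop :=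
  ∀ m₁ m₂ : Measure (G ⧸ Γ), IsProbabilityMeasure m₁ → IsProbabilityMeasure m₂ →
    Stationary S m₁ → Stationary S m₂ →
    ∀ a b : ℝ≥0, 0 < a → 0 < b → a + b = 1 → m = a • m₁ + b • m₂ → m₁ = m₂

/-- `Γ₁` and `h Γ₂ h⁻¹` are commensurable for some `h`. -/
def CommensurableUpToConj {G : Type} [Group G] (Γ₁ Γ₂ : Subgroup G) : Prop :=
  ∃ h : G, Subgroup.Commensurable Γ₁ (Γ₂.map (MulAut.conj h).toMonoidHom)

theorem result :
    ∀ (G : Type) [Group G] [TopologicalSpace G] [IsTopologicalGroup G] [LocallyCompactSpace G]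
      [T2Space G] [SecondCountableTopology G] (Γ₁ Γ₂ : Subgroup G),
      CocompactLattice Γ₁ → CocompactLattice Γ₂ →
    ∀ (E : Type) [AddCommGroup E] [Module ℂ E] [TopologicalSpace E] (ρ : G →* (E →ₗ[ℂ] E)),
      IrreducibleRep ρ → ∀ V : Submodule ℂ E, Dense (V : Set E) →
    ∀ η₁ η₂ : E →L[ℂ] ℂ, Automorphic ρ Γ₁ η₁ → Automorphic ρ Γ₂ η₂ →
      (∃ C : ℝ, ∀ v ∈ V, autNorm ρ η₁ v ≤ C * autNorm ρ η₂ v) →
    ∀ S : Finset G, S.Nonempty → Subgroup.closure (S : Set G) = Γ₁ →
      CommensurableUpToConj Γ₁ Γ₂ ∨
      ∃ m : Measure (G ⧸ Γ₂), IsProbabilityMeasure m ∧ Stationary S m ∧ ErgodicStationary S m ∧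
        (∀ x, m {x} = 0) ∧
        ∀ N : Subgroup G, N.Normal → (∃ g ∈ N, ∃ v, ρ g v ≠ v) →
          ∃ g ∈ N, ∃ A, MeasurableSet A ∧ m ((fun x => g • x) ⁻¹' A) ≠ m A := by
  intro G _ _ _ _ _ _ Γ₁ Γ₂ h₁ h₂ E _ _ _ ρ hρ V hV η₁ η₂ hη₁ hη₂ hC S hS hSΓ
  obtain ⟨C, hC⟩ := hC
  have := h₁.compact
  have := h₂.compact
  have := h₂.discrete
  have : BorelSpace (G ⧸ Γ₂) := ⟨rfl⟩
  exact Pool.Agent.Lib.MP_119f04_al.main ρ hρ.continuous Γ₁ Γ₂ hρ.irreducible V hV η₁ η₂
    hη₁.ne_zero hη₁.invariant hη₂.invariant C hC S hS hSΓ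

end Pool.Agent.Results.MP_119f04_al.AutomorphicNorms
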